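import Pool.Agent.Y883.T4.Joint
import Pool.Agent.Y883.GJ.Pairs2
import Pool.Agent.Y883.GJ.AsmC

/-!
# Joint correlations of the von Mangoldt and Liouville functions with shifts in every residue class

From the starting files: Davenport's theorem, Vaughan's identity, the theorem of Bombieri and Vinogradov, the sieve
model of the von Mangoldt function and its correlations (`Pool.Agent.H807R2.Dav`, `Pool.Agent.H373R2.T7`), the large
sieve, the divisor bound.
From Mathlib: `ArithmeticFunction.vonMangoldt`; `ArithmeticFunction.cardFactors n`: the number of the prime factors of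
`n` with multiplicity; `Finset.Icc 1 N`: the integers from `1` to `N`; `Fintype.piFinset fun _ : Fin k => I`: the
vectors `(m_1, ..., m_k)` of elements of the finite set `I`.
-/

set_option autoImplicit false

namespace Pool.Agent.Results.MP_e6fa8b_nt.EveryModulusShifts

open Finset

/-- The number of the residue classes `r` modulo `p` such that `p` divides one of `r, r + h_1, ..., r + h_k`; this is
the number of the distinct residues modulo `p` of the shifts `0, h_1, ..., h_k`. -/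
def nu {k : ℕ} (h : Fin k → ℕ) (p : ℕ) : ℕ := ((range p).filter (fun r => p ∣ r ∨ ∃ i, p ∣ r + h i)).card

/-- The product of the factors of the singular series of the `k + 1` shifts `0, h_1, ..., h_k` at the primes
`p ≤ z`. -/
noncomputable def sing {k : ℕ} (h : Fin k → ℕ) (z : ℕ) : ℝ :=
  ∏ p ∈ (Icc 1 z).filter Nat.Prime, (1 - (nu h p : ℝ) / p) / (1 - 1 / (p : ℝ)) ^ (k + 1)

/-- The singular series `S` of `0, h_1, ..., h_k` converges and
`|∑_{n ≤ N} Λ(n) Λ(n + h_1) ... Λ(n + h_k) - S N| ≤ N / log ^ A N`. -/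
def Asymptotic {k : ℕ} (A N : ℕ) (h : Fin k → ℕ) : Prop :=
  ∃ S : ℝ, Filter.Tendsto (sing h) Filter.atTop (nhds S) ∧
    |∑ n ∈ Icc 1 N, ArithmeticFunction.vonMangoldt n * ∏ i, ArithmeticFunction.vonMangoldt (n + h i) - S * N| ≤
      N / Real.log N ^ A

open Classical in
/-- For all offsets `c_1, ..., c_k ≤ B N` (hence for all tuples of residue classes modulo `q`), the asymptotic formula
holds for all but `(N / q) ^ k / log ^ A N` of the vectors of shifts `h_i = c_i + q m_i`, `1 ≤ m_i ≤ N / q`. -/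
def PrimeGood (k A B N q : ℕ) : Prop := ∀ c : Fin k → ℕ, (∀ i, c i ≤ B * N) →
  (((Fintype.piFinset (fun _ : Fin k => Icc 1 (N / q))).filter
    (fun m : Fin k → ℕ => ¬ Asymptotic A N (fun i => c i + q * m i))).card : ℝ) ≤
    ((N : ℝ) / q) ^ k / Real.log N ^ A

/-- The Liouville function on the integers, `0` at the integers `m ≤ 0`, with complex values. -/
noncomputable def lam (m : ℤ) : ℂ := if 1 ≤ m then (-1) ^ ArithmeticFunction.cardFactors m.toNat else 0

open Classical in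
/-- For all offsets `|c| ≤ B N` (hence for all residue classes modulo `q`) and all families of at most `log ^ T N`
weights `θ_l`, bounded by `log ^ T N`, and multipliers `α_l ≥ 1`: all but `N / (q log ^ A N)` of the shifts
`h = c + q m`, `1 ≤ m ≤ N / q`, satisfy `|∑_{n ≤ x} θ_l(n) λ(α_l n + h)| ≤ N / log ^ A N` for all `l` and all `x` with
`α_l x ≤ B N`. The weights may be products of values of `Λ` and `λ` at other shifts of `n`. -/
def LiouvilleGood (A B T N q : ℕ) : Prop := ∀ c : ℤ, |c| ≤ B * N → ∀ J : ℕ, (J : ℝ) ≤ Real.log N ^ T →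
  ∀ (α : ℕ → ℕ) (θ : ℕ → ℕ → ℂ), (∀ l < J, 1 ≤ α l) →
  (∀ l < J, ∀ n, 1 ≤ n → α l * n ≤ B * N → ‖θ l n‖ ≤ Real.log N ^ T) →
  (((Icc 1 (N / q)).filter (fun m : ℕ => ¬ ∀ l < J, ∀ x : ℕ, α l * x ≤ B * N →
    ‖∑ n ∈ Icc 1 x, θ l n * lam (((α l * n : ℕ) : ℤ) + (c + q * m))‖ ≤ N / Real.log N ^ A)).card : ℝ) ≤
    N / (q * Real.log N ^ A)

/-- The singular series `S` of `0, h` converges and
`|∑_{n ≤ N - h} Λ(n) Λ(n + h) - S (N - h)| ≤ N / log ^ A N`. -/
def PairAsymptotic (A N h : ℕ) : Prop :=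
  ∃ S : ℝ, Filter.Tendsto (sing (fun _ : Fin 1 => h)) Filter.atTop (nhds S) ∧
    |∑ n ∈ Icc 1 (N - h), ArithmeticFunction.vonMangoldt n * ArithmeticFunction.vonMangoldt (n + h) -
      S * ((N : ℝ) - h)| ≤ N / Real.log N ^ A

open Classical in
/-- In every residue class `c` modulo `q` with `gcd(c, q) ≤ log ^ T N`, all but `N / (q log ^ A N)` of the differences
`1 ≤ h ≤ N` satisfy the asymptotic formula for prime pairs. -/
def EveryPair (A T N q : ℕ) : Prop := ∀ c : ℕ, (Nat.gcd c q : ℝ) ≤ Real.log N ^ T →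
  (((Icc 1 N).filter (fun h : ℕ => h % q = c % q ∧ ¬ PairAsymptotic A N h)).card : ℝ) ≤ N / (q * Real.log N ^ A)

/-- No member of `D` divides `q`. -/
def Free (D : Finset ℕ) (q : ℕ) : Prop := ∀ d ∈ D, ¬ d ∣ q

open Classical in
/-- The number of the integers `1 ≤ q ≤ X` with the property `E`. -/
noncomputable def num (X : ℕ) (E : ℕ → Prop) : ℝ := (((Icc 1 X).filter E).card : ℝ)

/-- reflection of the residue classes -/
lemma nu_symm (h p : ℕ) (hp : 0 < p) :
    ((range p).filter (fun r : ℕ => p ∣ r ∨ ∃ i : Fin 1, (p : ℤ) ∣ (r : ℤ) + Pool.Agent.W93.GB.sh h i)).card =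
      nu (fun _ : Fin 1 => h) p := by
  have key : ∀ r : ℕ, r < p → (((p - r) % p : ℕ) : ℤ) = -(r : ℤ) + p * (if r = 0 then 0 else 1) := by
    intro r hr
    by_cases h0 : r = 0
    · subst h0
      rw [Nat.sub_zero, Nat.mod_self, if_pos rfl]
      simp
    · rw [if_neg h0, Nat.mod_eq_of_lt (by omega)]
      omega
  have hlt : ∀ r : ℕ, (p - r) % p < p := fun r => Nat.mod_lt _ hp
  have hinv : ∀ r : ℕ, r < p → (p - (p - r) % p) % p = r := by
    intro r hr
    by_cases h0 : r = 0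
    · subst h0
      rw [Nat.sub_zero, Nat.mod_self, Nat.sub_zero, Nat.mod_self]
    · rw [Nat.mod_eq_of_lt (show p - r < p by omega), Nat.mod_eq_of_lt (by omega)]
      omega
  have h1 : ∀ r : ℕ, r < p → (p ∣ (p - r) % p ↔ p ∣ r) := by
    intro r hr
    rw [← Int.natCast_dvd_natCast, ← Int.natCast_dvd_natCast, key r hr, dvd_add_left (Dvd.intro _ rfl), dvd_neg]
  have h2 : ∀ r : ℕ, r < p → (p ∣ (p - r) % p + h ↔ (p : ℤ) ∣ (r : ℤ) + -(h : ℤ)) := by
    intro r hr
    rw [← Int.natCast_dvd_natCast, Nat.cast_add, key r hr]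
    have e : -(r : ℤ) + p * (if r = 0 then 0 else 1) + h = -((r : ℤ) + -(h : ℤ)) + p * (if r = 0 then 0 else 1) := by
      ring
    rw [e, dvd_add_left (Dvd.intro _ rfl), dvd_neg]
  have h3 : ∀ r : ℕ, r < p → ((p : ℤ) ∣ (((p - r) % p : ℕ) : ℤ) + -(h : ℤ) ↔ p ∣ r + h) := by
    intro r hr
    rw [← Int.natCast_dvd_natCast, Nat.cast_add, key r hr]
    have e : -(r : ℤ) + p * (if r = 0 then 0 else 1) + -(h : ℤ) = -((r : ℤ) + h) + p * (if r = 0 then 0 else 1) := by
      ring
    rw [e, dvd_add_left (Dvd.intro _ rfl), dvd_neg]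
  unfold nu Pool.Agent.W93.GB.sh
  apply card_nbij' (fun r => (p - r) % p) (fun r => (p - r) % p)
  · intro r hr
    rw [mem_coe, mem_filter, mem_range] at hr ⊢
    refine ⟨hlt r, ?_⟩
    rcases hr.2 with h4 | ⟨i, h4⟩
    · exact Or.inl ((h1 r hr.1).2 h4)
    · exact Or.inr ⟨i, (h2 r hr.1).2 h4⟩
  · intro r hr
    rw [mem_coe, mem_filter, mem_range] at hr ⊢
    refine ⟨hlt r, ?_⟩
    rcases hr.2 with h4 | ⟨i, h4⟩
    · exact Or.inl ((h1 r hr.1).2 h4)
    · exact Or.inr ⟨i, (h3 r hr.1).2 h4⟩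
  · intro r hr
    rw [mem_coe, mem_filter, mem_range] at hr
    exact hinv r hr.1
  · intro r hr
    rw [mem_coe, mem_filter, mem_range] at hr
    exact hinv r hr.1

lemma sing_symm (h z : ℕ) :
    Pool.Agent.H373R2.T7.singZ (Pool.Agent.W93.GB.sh h) z = sing (fun _ : Fin 1 => h) z := by
  unfold Pool.Agent.H373R2.T7.singZ sing Pool.Agent.H373R2.T7.nuP
  apply prod_congr rfl
  intro p hp
  rw [mem_filter] at hp
  rw [nu_symm h p hp.2.pos]

lemma pair_sum (N h : ℕ) (hh : h ≤ N) : Pool.Agent.Y883.GJ.PS N h =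
    ∑ n ∈ Icc 1 (N - h), ArithmeticFunction.vonMangoldt n * ArithmeticFunction.vonMangoldt (n + h) := by
  classical
  unfold Pool.Agent.Y883.GJ.PS Pool.Agent.H373R2.T7.lamI
  have e1 : ∑ n ∈ Icc 1 N, ArithmeticFunction.vonMangoldt n *
      (if 1 ≤ (n : ℤ) - h then ArithmeticFunction.vonMangoldt ((n : ℤ) - h).toNat else 0) =
      ∑ n ∈ (Icc 1 N).filter (fun n : ℕ => 1 ≤ (n : ℤ) - h),
        ArithmeticFunction.vonMangoldt n * ArithmeticFunction.vonMangoldt ((n : ℤ) - h).toNat := by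
    rw [sum_filter]
    apply sum_congr rfl
    intro n _
    split_ifs
    · rfl
    · rw [mul_zero]
  rw [e1]
  symm
  apply sum_nbij (fun n => n + h)
  · intro n hn
    rw [mem_Icc] at hn
    rw [mem_filter, mem_Icc]
    omega
  · intro x _ y _ hxy
    simp only at hxy
    omega
  · intro n hn
    rw [mem_coe, mem_filter, mem_Icc] at hn
    refine ⟨n - h, ?_, ?_⟩
    · rw [mem_coe, mem_Icc]
      omega
    · simp only
      omega
  · intro n _
    have e2 : (((n + h : ℕ) : ℤ) - h).toNat = n := by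
      rw [Nat.cast_add, add_sub_cancel_right, Int.toNat_natCast]
    rw [e2, mul_comm]

/-- Let `k ≥ 1`, `A`, `B`, `T` and `ρ > 0` be fixed and let `N` be large. For EVERY modulus `q ≤ N ^ (1 / 2 - ρ)` and
every residue class `c` modulo `q` with `gcd(c, q) ≤ log ^ T N`, the asymptotic formula for the prime pairs `n, n + h`
(the case `k + 1 = 2`, `ℓ = 0`) holds for all but `N / (q log ^ A N)` of the differences `h ≤ N`, `h ≡ c` modulo `q`.
Moreover, there is a finite set `D` of integers larger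
than `log ^ A N`, with at most `X ^ ρ` members up to `X` for all `X ≥ 1`, such that all the moduli
`q ≤ N ^ (2 / 3 - ρ)` without a divisor in `D` have the following properties, for EVERY residue class modulo `q`:

* (`ℓ = 0`, the prime tuples conjecture for almost all tuples in thin progressions) for all `c_1, ..., c_k ≤ B N` and
  almost all vectors of shifts `h_i ≡ c_i` modulo `q`, `h_i ≤ c_i + N`, the sum
  `∑_{n ≤ N} Λ(n) Λ(n + h_1) ... Λ(n + h_k)` is the singular series times `N`, up to `N / log ^ A N`;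
* (`ℓ ≥ 1`) for almost all the values `h ≡ c` modulo `q` of one Liouville shift, all the correlations
  `∑_{n ≤ x} θ(n) λ(α n + h)` are at most `N / log ^ A N`, where `θ(n)` is arbitrary, for example the product of all
  the other factors `Λ(a n + h')`, `λ(a n + h')` of the problem.

Moreover, for every `X ≤ N` at most `X ^ 2 log ^ c N / N` of the moduli `q ≤ X` without a divisor in `D` do not have
these properties. -/
theorem result (k : ℕ) (hk : 1 ≤ k) (A B T : ℕ) (ρ : ℝ) (hρ : 0 < ρ) :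
    ∃ c N₀ : ℕ, ∀ N : ℕ, N₀ ≤ N → (∀ q : ℕ, 1 ≤ q → (q : ℝ) ≤ (N : ℝ) ^ (1 / 2 - ρ) → EveryPair A T N q) ∧
      ∃ D : Finset ℕ,
      (∀ d ∈ D, Real.log N ^ A < (d : ℝ)) ∧
      (∀ X : ℝ, 1 ≤ X → ((D.filter (fun d : ℕ => (d : ℝ) ≤ X)).card : ℝ) ≤ X ^ ρ) ∧
      (∀ q : ℕ, 1 ≤ q → (q : ℝ) ≤ (N : ℝ) ^ (2 / 3 - ρ) → Free D q → PrimeGood k A B N q ∧ LiouvilleGood A B T N q) ∧
      ∀ X : ℕ, X ≤ N → num X (fun q => Free D q ∧ ¬ (PrimeGood k A B N q ∧ LiouvilleGood A B T N q)) * N ≤
        (X : ℝ) ^ 2 * Real.log N ^ c := by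
  classical
  obtain ⟨c, N₀, h⟩ := Pool.Agent.Y883.T4.joint k hk B A T ρ hρ
  obtain ⟨N₁, hp⟩ := Pool.Agent.Y883.GJ.pairs_every Pool.Agent.Y883.GJ.coreC_all Pool.Agent.Y883.GJ.model_all ρ hρ A T
  have hsing : ∀ (h : Fin k → ℕ) (z : ℕ), Pool.Agent.H373R2.T7.singZ (fun i => ((h i : ℕ) : ℤ)) z = sing h z := by
    intro h z
    unfold Pool.Agent.H373R2.T7.singZ sing Pool.Agent.H373R2.T7.nuP nu
    apply prod_congr rfl
    intro p _
    have e : ((range p).filter (fun r => p ∣ r ∨ ∃ i, (p : ℤ) ∣ (r : ℤ) + ((h i : ℕ) : ℤ))) =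
        ((range p).filter (fun r => p ∣ r ∨ ∃ i, p ∣ r + h i)) := by
      ext r
      simp only [mem_filter]
      apply and_congr_right
      intro _
      apply or_congr_right
      apply exists_congr
      intro i
      rw [← Int.natCast_add, Int.natCast_dvd_natCast]
    rw [e]
  have hasym : ∀ (N : ℕ) (h : Fin k → ℕ), Asymptotic A N h ↔ Pool.Agent.Y883.T4.TupOK (fun i => ((h i : ℕ) : ℤ)) N A := by
    intro N h
    unfold Asymptotic Pool.Agent.Y883.T4.TupOK
    have e1 : (fun z => Pool.Agent.H373R2.T7.singZ (fun i => ((h i : ℕ) : ℤ)) z) = sing h := funext fun z => hsing h z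
    rw [e1]
    have e2 : ∑ n ∈ Icc 1 N, ArithmeticFunction.vonMangoldt n * ∏ i, Pool.Agent.H373R2.T7.lamI ((n : ℤ) + ((h i : ℕ) : ℤ)) =
        ∑ n ∈ Icc 1 N, ArithmeticFunction.vonMangoldt n * ∏ i, ArithmeticFunction.vonMangoldt (n + h i) := by
      apply sum_congr rfl
      intro n hn
      rw [mem_Icc] at hn
      congr 1
      apply prod_congr rfl
      intro i _
      unfold Pool.Agent.H373R2.T7.lamI
      rw [if_pos (by omega)]
      congr 1
    rw [e2]
  have hT : ∀ N q : ℕ, Pool.Agent.Y883.T4.GoodT k B N A q ↔ PrimeGood k A B N q := by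
    intro N q
    unfold Pool.Agent.Y883.T4.GoodT PrimeGood
    apply forall_congr'
    intro c
    apply imp_congr_right
    intro _
    have e : ∀ m : Fin k → ℕ, Pool.Agent.Y883.T4.TupOK (fun i => (c i : ℤ) + q * (m i : ℕ)) N A ↔
        Asymptotic A N (fun i => c i + q * m i) := by
      intro m
      rw [hasym]
      push_cast
      exact Iff.rfl
    simp only [e]
  have hLi : ∀ N q : ℕ, Pool.Agent.Y883.T4.GoodL B N A T q ↔ LiouvilleGood A B T N q := fun N q => Iff.rfl
  refine ⟨c, N₀ + N₁, fun N hN => ⟨fun q hq1 hq2 b hb => ?_, ?_⟩⟩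
  · refine le_trans ?_ (hp N (by omega) q hq1 hq2 b hb)
    rw [Nat.cast_le]
    apply card_le_card
    intro m hm
    rw [mem_filter, mem_Icc] at hm
    unfold Pool.Agent.Y883.GJ.badp
    rw [mem_filter, mem_Icc]
    refine ⟨hm.1, hm.2.1, fun hgood => hm.2.2 ?_⟩
    obtain ⟨⟨S, hS1, hS2, -⟩, -⟩ := hgood
    refine ⟨S, ?_, ?_⟩
    · have e1 : (fun z => Pool.Agent.H373R2.T7.singZ (Pool.Agent.W93.GB.sh m) z) = sing (fun _ : Fin 1 => m) :=
        funext fun z => sing_symm m z
      rw [← e1]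
      exact hS1
    · rw [← pair_sum N m hm.1.2]
      exact hS2
  obtain ⟨D, h1, h2, h3, h4⟩ := h N (by omega)
  refine ⟨D, h1, h2, fun q hq1 hq2 hq3 => ?_, fun X hX => ?_⟩
  · rw [← hT, ← hLi]
    exact h3 q hq1 hq2 hq3
  · have e := h4 X hX ((Icc 1 X).filter (fun q => Free D q ∧ ¬ (PrimeGood k A B N q ∧ LiouvilleGood A B T N q))) (by
      intro q hq
      rw [mem_filter, mem_Icc] at hq
      refine ⟨hq.1.1, hq.1.2, hq.2.1, ?_⟩
      rw [hT, hLi]
      exact hq.2.2)
    unfold num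
    convert e

end Pool.Agent.Results.MP_e6fa8b_nt.EveryModulusShifts
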