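import Pool.Agent.Y842.JC.Nat
import Pool.Agent.TH823.MRS.Circ5

/-!
# The Hardy-Littlewood-Chowla statement for almost all shifts in windows of length `C (log N) ^ f`

`f ≥ 1` shifts `a` of the von Mangoldt function are held fixed (anywhere up to `H`, of bounded diameter),
`s` further shifts `x.1` of it and one shift `x.2 + B` of the Liouville function move in windows of length `H`.
The remaining factors (other shifts of the Liouville function, for instance) are hidden in an arbitrary weight `b`
of modulus at most one. For all but `ε H ^ (s + 1)` of the moving shifts all sums up to `X ≤ N` are at most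
`ε N`, provided `H ≥ C (log N) ^ f`.

The proof takes the mean square over the moving shifts. The Liouville function enters through the theorem of
Matomäki, Radziwiłł and Tao on exponential sums in almost all short intervals (starting files), the weights
through the Gram matrix of their products in the windows. An upper bound sieve for the pairs of shift tuples
splits this matrix into a diagonal part, whose rows are of size `N H ^ s (log N) ^ f`, and the rest, which is
bounded in the Hilbert-Schmidt norm and is multiplied by the gain from the exponential sums.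
-/

namespace Pool.Agent.Results.MP_e6fa8b_nt.ShortAverages

open Finset

theorem result (f s : ℕ) (hf : 1 ≤ f) (D : ℕ) (ε : ℝ) (hε : 0 < ε) :
    ∃ C : ℝ, ∃ N₀ : ℕ, ∀ N H : ℕ, N₀ ≤ N → C * Real.log N ^ f ≤ H → H ≤ N →
      ∀ a : Fin f → ℕ, Function.Injective a → (∀ i, a i ≤ H) → (∀ i l, a i ≤ a l + D) →
      ∀ B : ℕ, B ≤ N → ∀ b : (Fin s → ℕ) → ℕ → ℂ, (∀ x n, ‖b x n‖ ≤ 1) →
      ({x : (Fin s → ℕ) × ℕ | (∀ j, 1 ≤ x.1 j ∧ x.1 j ≤ H) ∧ (1 ≤ x.2 ∧ x.2 ≤ H) ∧
        ∃ X : ℕ, X ≤ N ∧ ε * N < ‖∑ n ∈ Icc 1 X, b x.1 n *
          (((∏ i, ArithmeticFunction.vonMangoldt (n + a i)) *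
            (∏ j, ArithmeticFunction.vonMangoldt (n + x.1 j)) *
            (-1 : ℝ) ^ (ArithmeticFunction.cardFactors (n + x.2 + B)) : ℝ) : ℂ)‖}.ncard : ℝ) ≤
        ε * (H : ℝ) ^ (s + 1) := by
  classical
  obtain ⟨C, N₀, h⟩ := Pool.Agent.Y842.JC.mainN Pool.Agent.H373R2.T7.liR Pool.Agent.H373R2.T7.liR_norm
    Pool.Agent.TH823.MRS.liR_E f s hf D ε hε
  refine ⟨C, N₀, fun N H hN hCH hHN a hinj haH haD B hB b hb => ?_⟩
  refine le_trans (le_of_eq ?_) (h N hN H hCH hHN a hinj haH haD B hB b hb)
  rw [← Set.ncard_coe_finset]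
  congr 2
  ext x
  simp only [Set.mem_ofPred_eq, coe_filter, mem_product, Fintype.mem_piFinset, mem_Icc, and_assoc]
  refine and_congr_right fun _ => and_congr_right fun _ => and_congr_right fun _ => exists_congr fun X =>
    and_congr_right fun _ => ?_
  apply iff_of_eq
  congr 2
  apply sum_congr rfl
  intro n _
  unfold Pool.Agent.H373R2.T7.liR
  push_cast
  ring

end Pool.Agent.Results.MP_e6fa8b_nt.ShortAverages
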