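import Pool.Agent.Y841.ThinCorr

/-!
# Joint correlations of the von Mangoldt and Liouville functions with one shift from a thin family

The bilinear inequality for families of nearly minimal additive energy, Davenport's bounds for the exponential
sums of the Liouville function and the moments of Weyl sums are from the starting files
(`Pool.Agent.TH823.Fam`, `Pool.Agent.H373R2.T7`).
From Mathlib: `Polynomial ℤ`: the polynomials with integer coefficients; `P.eval m`: the value at `m`.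
-/

set_option autoImplicit false

namespace Pool.Agent.Results.MP_e6fa8b_nt.ThinShifts

open Finset

/-- The Liouville function on the integers, `0` at the integers `m ≤ 0`, with complex values. -/
noncomputable def lam (m : ℤ) : ℂ := if 1 ≤ m then (-1) ^ ArithmeticFunction.cardFactors m.toNat else 0

/-- The additive energy of order `p` of the family `s 1, ..., s x`: the number of the solutions of
`s (v 1) + ... + s (v p) = s (w 1) + ... + s (w p)` with all `v i`, `w i` in `{1, ..., x}`. -/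
def energy (p x : ℕ) (s : ℕ → ℤ) : ℕ :=
  (((Fintype.piFinset fun _ : Fin p => Icc 1 x) ×ˢ (Fintype.piFinset fun _ : Fin p => Icc 1 x)).filter
    (fun q => ∑ i, s (q.1 i) = ∑ i, s (q.2 i))).card

open Classical in
/-- The number of the `m` in `{1, ..., x}` with the property `E`. -/
noncomputable def num (x : ℕ) (E : ℕ → Prop) : ℝ := (((Icc 1 x).filter E).card : ℝ)

/-- The shift `h` is good for the data `α`, `a`, `h'`, `θ` (with the bound `N / log ^ U N`, for all lengths): all the
correlations `∑ n ≤ X, θ l n * (∏ i, Λ (a l i * n + h' l i)) * λ (α l * n + h)` are small. -/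
def Good (B U N : ℕ) {r L : ℕ} (α : Fin L → ℕ) (a h' : Fin L → Fin r → ℕ) (θ : Fin L → ℕ → ℂ) (h : ℤ) : Prop :=
  ∀ l, ∀ X : ℕ, α l * X ≤ B * N →
    ‖∑ n ∈ Icc 1 X, θ l n * (∏ i, (ArithmeticFunction.vonMangoldt (a l i * n + h' l i) : ℂ)) *
      lam (((α l * n : ℕ) : ℤ) + h)‖ ≤ (N : ℝ) / Real.log N ^ U

/-- The data are admissible: at most `log ^ T N` indices, `α l ≥ 1`, coefficients up to `N ^ B`, weights bounded by `1`. -/
def Data (B T N : ℕ) {r L : ℕ} (α : Fin L → ℕ) (a h' : Fin L → Fin r → ℕ) (θ : Fin L → ℕ → ℂ) : Prop :=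
  (L : ℝ) ≤ Real.log N ^ T ∧ (∀ l, 1 ≤ α l) ∧ (∀ l i, a l i ≤ N ^ B ∧ h' l i ≤ N ^ B) ∧ ∀ l n, ‖θ l n‖ ≤ 1

/-- Let `r`, `B`, `C`, `T` and `U` be fixed and let `N` be large. For each of at most `log ^ T N` indices `l` let
`α l ≥ 1`, let `a l i n + h' l i` for `i < r` be arbitrary linear forms with non-negative coefficients `≤ N ^ B`,
and let `θ l : ℕ → ℂ` be an arbitrary function bounded by `1` (for example a product of values of the
Liouville function at shifts of `n`). The shift `h` is good if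
`|∑ n ≤ X, θ l n * (∏ i, Λ (a l i * n + h' l i)) * λ (α l * n + h)| ≤ N / log ^ U N` for all `l` and all `X ≤ B N / α l`.

* Let `s 1, ..., s x` be an arbitrary family of integers in `[-B N, B N]` with an additive energy of some fixed
  order `p` of at most `log ^ C N` times the minimal possible size `x ^ (2 p) / N`. Then all the members `s m` of
  the family, with at most `x / log ^ U N` exceptions `m ≤ x`, are good.
* In particular this holds for the members `c + P m`, `m ≤ x`, where `P` is a fixed nonconstant polynomial with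
  integer coefficients, of degree `d`, `N / log ^ C N ≤ x ^ d ≤ B N` and `|c| ≤ B N`. -/
theorem result (r B C T U : ℕ) :
    (∀ p : ℕ, ∃ N₀ : ℕ, ∀ N : ℕ, N₀ ≤ N → ∀ (x : ℕ) (s : ℕ → ℤ), (∀ m ∈ Icc 1 x, |s m| ≤ B * N) →
      (energy p x s : ℝ) * N ≤ Real.log N ^ C * (x : ℝ) ^ (2 * p) →
      ∀ (L : ℕ) (α : Fin L → ℕ) (a h' : Fin L → Fin r → ℕ) (θ : Fin L → ℕ → ℂ), Data B T N α a h' θ →
        num x (fun m => ¬ Good B U N α a h' θ (s m)) ≤ x / Real.log N ^ U) ∧
    (∀ P : Polynomial ℤ, 1 ≤ P.natDegree → ∃ N₀ : ℕ, ∀ N : ℕ, N₀ ≤ N → ∀ x : ℕ, x ^ P.natDegree ≤ B * N →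
      (N : ℝ) ≤ Real.log N ^ C * (x : ℝ) ^ P.natDegree → ∀ c : ℤ, |c| ≤ B * N →
      ∀ (L : ℕ) (α : Fin L → ℕ) (a h' : Fin L → Fin r → ℕ) (θ : Fin L → ℕ → ℂ), Data B T N α a h' θ →
        num x (fun m => ¬ Good B U N α a h' θ (c + P.eval (m : ℤ))) ≤ x / Real.log N ^ U) := by
  classical
  have hlam : ∀ m : ℤ, Pool.Agent.H373R2.T7.exI Pool.Agent.H373R2.T7.liR m = lam m := fun m => rfl
  refine ⟨fun p => ?_, fun P hP => ?_⟩
  · obtain ⟨N₀, h0⟩ := Pool.Agent.Y841.TC.fam_lin Pool.Agent.H373R2.T7.liR Pool.Agent.H373R2.T7.liR_norm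
      Pool.Agent.H373R2.T7.sup_liou r p B C T U
    refine ⟨N₀, fun N hN x s hs hE L α a h' θ hd => ?_⟩
    refine @h0 N hN x s hs hE L hd.1 α a h' θ hd.2.1 hd.2.2.1 hd.2.2.2 _ (fun _ => Classical.propDecidable _) ?_
    intro m _ hm
    unfold Good at hm
    push Not at hm
    obtain ⟨l, X, hX, h2⟩ := hm
    exact ⟨l, X, hX, h2⟩
  · obtain ⟨N₀, h0⟩ := Pool.Agent.Y841.TC.fam_pol Pool.Agent.H373R2.T7.liR Pool.Agent.H373R2.T7.liR_norm
      Pool.Agent.H373R2.T7.sup_liou r B C T U P hP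
    refine ⟨N₀, fun N hN x hx1 hx2 c hc L α a h' θ hd => ?_⟩
    refine @h0 N hN x hx1 hx2 c hc L hd.1 α a h' θ hd.2.1 hd.2.2.1 hd.2.2.2 _
      (fun _ => Classical.propDecidable _) ?_
    intro m _ hm
    unfold Good at hm
    push Not at hm
    obtain ⟨l, X, hX, h2⟩ := hm
    exact ⟨l, X, hX, h2⟩

end Pool.Agent.Results.MP_e6fa8b_nt.ThinShifts
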